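import Pool.Agent.C4C6Sat.Coloring

namespace Pool.Agent.Results.MP_7874c9_co.C4FreeSaturated

open SimpleGraph Pool.Agent.C4C6Sat

/-- `G` is `H`-saturated: `G` does not contain `H`, but adding any single edge of the complement
of `G` produces a graph containing `H`. -/
def IsSaturated {V W : Type*} (H : SimpleGraph W) (G : SimpleGraph V) : Prop :=
  H.Free G ∧ ∀ u v, u ≠ v → ¬ G.Adj u v → H ⊑ G ⊔ edge u v

theorem contains_cycle {V : Type*} {G : SimpleGraph V} {n : ℕ} (p : Fin (n + 2) → V)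
    (hp : Function.Injective p) (h : ∀ i, G.Adj (p i) (p (i + 1))) : cycleGraph (n + 2) ⊑ G := by
  refine ⟨⟨⟨p, ?_⟩, hp⟩⟩
  intro a b hab
  rw [cycleGraph_adj] at hab
  rcases hab with hab | hab
  · have : a = b + 1 := by rw [← hab]; abel
    rw [this]
    exact (h b).symm
  · have : b = a + 1 := by rw [← hab]; abel
    rw [this]
    exact h a

theorem of_contains {V : Type*} {G : SimpleGraph V} {n : ℕ} (h : cycleGraph (n + 2) ⊑ G) :
    ∃ p : Fin (n + 2) → V, Function.Injective p ∧ ∀ i, G.Adj (p i) (p (i + 1)) := by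
  obtain ⟨f⟩ := h
  refine ⟨f, f.injective, fun i => ?_⟩
  apply f.toHom.map_adj
  rw [cycleGraph_adj]
  right
  abel

open Classical in
theorem main_graph {F : Type*} [Field F] [CharP F 2] [Fintype F] {θ : F ≃+* F}
    (hθ : ∀ a, θ (θ a) = a ^ 2) (k : ℕ) (hk : 12 * k ≤ Fintype.card F)
    (hcount : (Fintype.card (F × F × F)) ^ 2 * 64 * (64 ^ 4 - 1) ^ k < (64 ^ 4) ^ k) (n : ℕ)
    (h1 : Fintype.card (F × F × F) ≤ 64 * n) (h2 : n ≤ Fintype.card (F × F × F)) :
    ∃ G : SimpleGraph (Fin n), IsSaturated (cycleGraph 6) G ∧ (cycleGraph 4).Free G := by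
  obtain ⟨f, hf⟩ := coloring hθ 64 k (by norm_num) hk hcount
  obtain ⟨i, -, hi⟩ := Finset.exists_card_fiber_le_of_card_le_mul (s := Finset.univ)
    (t := (Finset.univ : Finset (Fin 64))) (f := f) (n := n) ⟨0, Finset.mem_univ _⟩
    (by rw [Finset.card_univ, Finset.card_univ, Fintype.card_fin]; exact h1)
  obtain ⟨U, hU1, -, hU2⟩ := Finset.exists_subsuperset_card_eq
    (Finset.subset_univ (Finset.univ.filter (fun x => f x = i))) hi
    (by rw [Finset.card_univ]; exact h2)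
  have e : Fin n ≃ U := (Finset.equivFinOfCardEq hU2).symm
  refine ⟨⟨fun a b => a ≠ b ∧ R θ (e a : F × F × F) (e b),
    ⟨fun a b h => ⟨h.1.symm, R_symm hθ h.2⟩⟩, ⟨fun a h => h.1 rfl⟩⟩, ?_, ?_⟩
  · refine ⟨?_, ?_⟩
    · intro hc
      obtain ⟨p, hp, h⟩ := of_contains hc
      have hpe : ∀ a b, a ≠ b → (e (p a) : F × F × F) ≠ e (p b) := by
        intro a b hab heq
        exact hab (hp (e.injective (Subtype.ext heq)))
      have r0 := (h 0).2
      have r1 := (h 1).2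
      have r2 := (h 2).2
      have r3 := (h 3).2
      have r4 := (h 4).2
      have r5 := (h 5).2
      exact c6 r0 (R_symm hθ r1) r2 (R_symm hθ r3) r4 (R_symm hθ r5)
        (hpe 2 4 (by decide)) (hpe 3 5 (by decide)) (hpe 1 3 (by decide))
    · intro a b hab hnadj
      have hne : (e a : F × F × F) ≠ e b := fun h => hab (e.injective (Subtype.ext h))
      have hnR : ¬ R θ (e a : F × F × F) (e b) := fun h => hnadj ⟨hab, h⟩
      obtain ⟨T, ⟨v1, v2, v3, v4, g1, g2, g3, g4, g5, hn, hT⟩, hT'⟩ := hf _ _ hne hnR i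
      have m1 : v1 ∈ U := hU1 (by
        rw [Finset.mem_filter]; exact ⟨Finset.mem_univ _, hT' v1 (by rw [hT]; simp)⟩)
      have m2 : v2 ∈ U := hU1 (by
        rw [Finset.mem_filter]; exact ⟨Finset.mem_univ _, hT' v2 (by rw [hT]; simp)⟩)
      have m3 : v3 ∈ U := hU1 (by
        rw [Finset.mem_filter]; exact ⟨Finset.mem_univ _, hT' v3 (by rw [hT]; simp)⟩)
      have m4 : v4 ∈ U := hU1 (by
        rw [Finset.mem_filter]; exact ⟨Finset.mem_univ _, hT' v4 (by rw [hT]; simp)⟩)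
      obtain ⟨w1, hw1⟩ := e.surjective ⟨v1, m1⟩
      obtain ⟨w2, hw2⟩ := e.surjective ⟨v2, m2⟩
      obtain ⟨w3, hw3⟩ := e.surjective ⟨v3, m3⟩
      obtain ⟨w4, hw4⟩ := e.surjective ⟨v4, m4⟩
      have hw1' : (e w1 : F × F × F) = v1 := by rw [hw1]
      have hw2' : (e w2 : F × F × F) = v2 := by rw [hw2]
      have hw3' : (e w3 : F × F × F) = v3 := by rw [hw3]
      have hw4' : (e w4 : F × F × F) = v4 := by rw [hw4]
      rw [← hw1', ← hw2', ← hw3', ← hw4'] at hn
      rw [← hw1', ← hw2'] at g2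
      rw [← hw2', ← hw3'] at g3
      rw [← hw3', ← hw4'] at g4
      rw [← hw1'] at g1
      rw [← hw4'] at g5
      have hnd : [a, w1, w2, w3, w4, b].Nodup := by
        apply List.Nodup.of_map (fun x => (e x : F × F × F))
        exact hn
      have hnd0 := hnd
      simp only [List.nodup_cons, List.mem_cons, List.not_mem_nil, or_false, not_or,
        not_false_eq_true, List.nodup_nil, and_true] at hnd
      obtain ⟨⟨n1, n2, n3, n4, n5⟩, ⟨n6, n7, n8, n9⟩, ⟨n10, n11, n12⟩, ⟨n13, n14⟩, n15⟩ := hnd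
      apply contains_cycle ![a, w1, w2, w3, w4, b]
      · rw [← List.nodup_ofFn]
        exact hnd0
      · intro x
        fin_cases x
        · exact Or.inl ⟨n1, g1⟩
        · exact Or.inl ⟨n6, g2⟩
        · exact Or.inl ⟨n10, g3⟩
        · exact Or.inl ⟨n13, g4⟩
        · exact Or.inl ⟨n15, g5⟩
        · right
          rw [edge_adj]
          exact ⟨Or.inr ⟨rfl, rfl⟩, hab.symm⟩
  · intro hc
    obtain ⟨p, hp, h⟩ := of_contains hc
    have hpe : ∀ a b, a ≠ b → (e (p a) : F × F × F) ≠ e (p b) := by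
      intro a b hab heq
      exact hab (hp (e.injective (Subtype.ext heq)))
    have r0 := (h 0).2
    have r1 := (h 1).2
    have r2 := (h 2).2
    have r3 := (h 3).2
    exact hpe 1 3 (by decide) (c4 (hpe 0 2 (by decide)) r0 (R_symm hθ r1) (R_symm hθ r3) r2)

theorem exists_field (α : ℕ) : ∃ (F : Type) (_ : Field F) (_ : CharP F 2) (_ : Fintype F)
    (θ : F ≃+* F), (∀ a, θ (θ a) = a ^ 2) ∧ Fintype.card F = 2 ^ (2 * α + 1) := by
  have : Fact (Nat.Prime 2) := ⟨Nat.prime_two⟩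
  let _ : Fintype (GaloisField 2 (2 * α + 1)) := Fintype.ofFinite _
  have hcard : Fintype.card (GaloisField 2 (2 * α + 1)) = 2 ^ (2 * α + 1) := by
    rw [← Nat.card_eq_fintype_card, GaloisField.card 2 (2 * α + 1) (by omega)]
  refine ⟨GaloisField 2 (2 * α + 1), inferInstance, inferInstance, inferInstance,
    RingEquiv.ofBijective (iterateFrobenius (GaloisField 2 (2 * α + 1)) 2 (α + 1))
      (Finite.injective_iff_bijective.mp (iterateFrobenius_inj _ 2 (α + 1))), ?_, hcard⟩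
  intro a
  rw [RingEquiv.ofBijective_apply, RingEquiv.ofBijective_apply, iterateFrobenius_def,
    iterateFrobenius_def, ← pow_mul, ← pow_add]
  have : α + 1 + (α + 1) = (2 * α + 1) + 1 := by ring
  rw [this, pow_succ, pow_mul]
  congr 1
  rw [← hcard]
  exact FiniteField.pow_card a

theorem numerics : ∃ K : ℕ, ∀ k ≥ K, (23 * k) ^ 6 * 64 * (64 ^ 4 - 1) ^ k < (64 ^ 4) ^ k := by
  have hr : ((64 : ℝ) ^ 4 - 1) / 64 ^ 4 < 1 := by norm_num
  have hr0 : 0 ≤ ((64 : ℝ) ^ 4 - 1) / 64 ^ 4 := by norm_num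
  have := tendsto_pow_const_mul_const_pow_of_lt_one 6 hr0 hr
  have h2 := this.eventually (gt_mem_nhds (show (0 : ℝ) < 1 / (23 ^ 6 * 64) by positivity))
  rw [Filter.eventually_atTop] at h2
  obtain ⟨K, hK⟩ := h2
  refine ⟨K, fun k hk => ?_⟩
  have h3 := hK k hk
  rw [div_pow, lt_div_iff₀ (by positivity)] at h3
  have hp : (0 : ℝ) < (64 ^ 4) ^ k := by positivity
  have h4 : (23 * (k : ℝ)) ^ 6 * 64 * (64 ^ 4 - 1) ^ k < (64 ^ 4) ^ k := by
    have : (23 * (k : ℝ)) ^ 6 * 64 * (64 ^ 4 - 1) ^ k =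
        ((k : ℝ) ^ 6 * ((64 ^ 4 - 1) ^ k / (64 ^ 4) ^ k) * (23 ^ 6 * 64)) * (64 ^ 4) ^ k := by
      field_simp
    rw [this]
    calc _ < 1 * (64 ^ 4 : ℝ) ^ k := mul_lt_mul_of_pos_right h3 hp
      _ = _ := one_mul _
  have h5 : (((23 * k) ^ 6 * 64 * (64 ^ 4 - 1) ^ k : ℕ) : ℝ) < (((64 ^ 4) ^ k : ℕ) : ℝ) := by
    push_cast
    norm_num at h4 ⊢
    exact h4
  exact_mod_cast h5

theorem large : ∃ n0 : ℕ, ∀ n ≥ n0, ∃ G : SimpleGraph (Fin n),
    IsSaturated (cycleGraph 6) G ∧ (cycleGraph 4).Free G := by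
  obtain ⟨K, hK⟩ := numerics
  -- choose `α0` with `2 ^ (2 α0 + 1) ≥ 12 (K + 1)`
  refine ⟨8 * 64 ^ (12 * (K + 1)) + 1, fun n hn => ?_⟩
  have hex : ∃ α, n ≤ 8 * 64 ^ α := ⟨n, by
    have := Nat.lt_pow_self (n := n) (show 1 < 64 by norm_num)
    omega⟩
  classical
  obtain ⟨α, hα⟩ : ∃ α, α = Nat.find hex := ⟨_, rfl⟩
  have hα1 : n ≤ 8 * 64 ^ α := hα ▸ Nat.find_spec hex
  have hαK : 12 * (K + 1) < α := by
    by_contra hcon
    push Not at hcon
    have : 64 ^ α ≤ 64 ^ (12 * (K + 1)) := Nat.pow_le_pow_right (by norm_num) hcon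
    omega
  obtain ⟨β, rfl⟩ : ∃ β, α = β + 1 := ⟨α - 1, by omega⟩
  have hβ : ¬ n ≤ 8 * 64 ^ β := Nat.find_min hex (by omega)
  obtain ⟨F, _, _, _, θ, hθ, hF⟩ := exists_field (β + 1)
  obtain ⟨q, hq⟩ : ∃ q, q = Fintype.card F := ⟨_, rfl⟩
  have hV : Fintype.card (F × F × F) = 8 * 64 ^ (β + 1) := by
    rw [Fintype.card_prod, Fintype.card_prod, hF]
    rw [show (64 : ℕ) = 2 ^ 6 by norm_num, show (8 : ℕ) = 2 ^ 3 by norm_num, ← pow_mul, ← pow_add,
      ← pow_add, ← pow_add]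
    congr 1
    ring
  have hV2 : Fintype.card (F × F × F) = q ^ 3 := by
    rw [Fintype.card_prod, Fintype.card_prod, hq]; ring
  have hqK : 12 * (K + 1) < q := by
    rw [hq, hF]
    calc 12 * (K + 1) < β + 1 := hαK
      _ ≤ 2 * (β + 1) + 1 := by omega
      _ < 2 ^ (2 * (β + 1) + 1) := Nat.lt_two_pow_self
  have hk1 : K + 1 ≤ q / 12 := by omega
  have hk2 : q ≤ 23 * (q / 12) := by omega
  have hk3 : 12 * (q / 12) ≤ q := by omega
  apply main_graph hθ (q / 12) (hq ▸ hk3)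
  · rw [hV2, ← pow_mul]
    refine lt_of_le_of_lt ?_ (hK (q / 12) (by omega))
    apply Nat.mul_le_mul_right
    apply Nat.mul_le_mul_right
    exact Nat.pow_le_pow_left hk2 _
  · rw [hV, pow_succ]; omega
  · rw [hV]; exact hα1

/-- For all large `n` there is a `C₆`-saturated graph on `n` vertices without a `C₄`; so only
finitely many `n` have the property that every `C₆`-saturated graph on `n` vertices contains a
`C₄`. -/
theorem result :
    (∃ n0 : ℕ, ∀ n ≥ n0, ∃ G : SimpleGraph (Fin n),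
      IsSaturated (cycleGraph 6) G ∧ (cycleGraph 4).Free G) ∧
    {n : ℕ | ∀ G : SimpleGraph (Fin n), IsSaturated (cycleGraph 6) G →
      cycleGraph 4 ⊑ G}.Finite := by
  refine ⟨large, ?_⟩
  obtain ⟨n0, h⟩ := large
  apply (Set.finite_lt_nat n0).subset
  intro n hn
  by_contra hcon
  obtain ⟨G, h1, h2⟩ := h n (not_lt.mp hcon)
  exact h2 (hn G h1)

end Pool.Agent.Results.MP_7874c9_co.C4FreeSaturated
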